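import Mathlib
import Pool.Agent.H17.ThetaPow

set_option autoImplicit false
open Filter MeasureTheory

namespace Pool.Agent.Results.MP_33ac70_nt.Divergence

open Pool.Agent.H17.ThetaPow in
theorem result :
    ¬ (∀ k : ℕ, 1 ≤ k → ∀ ρ : ℕ → ℝ, (∀ m, 0 ≤ ρ m) →
      ¬ Summable (fun m : ℕ => ρ (m + 1) / ((m : ℝ) + 1)) →
      ∀ᵐ θ : ℝ ∂(volume.restrict (Set.Ioi (0 : ℝ))),
        Set.Infinite {s : (Fin k → ℕ) × ℕ | (∀ j, 1 ≤ s.1 j) ∧ 1 ≤ s.2 ∧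
          |(∑ j, (s.1 j : ℝ) ^ θ) - (s.2 : ℝ)|
            ≤ ρ (Finset.univ.sup s.1) / ((Finset.univ.sup s.1 : ℕ) : ℝ) ^ k}) := by
  intro H
  have h1 := H 1 le_rfl rho rho_nonneg not_summable
  rw [ae_restrict_iff' measurableSet_Ioi] at h1
  have h2 : ∀ᵐ θ : ℝ, θ ∉ Set.range (fun p : ℕ × ℕ => Real.log p.2 / Real.log p.1) :=
    (Set.countable_range _).ae_notMem _
  have h3 : ∀ᵐ θ : ℝ, θ ∉ Set.Ioc (0:ℝ) (1/2) := by
    filter_upwards [h1, h2, ae_B] with θ a1 a2 a3 hθ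
    apply a1 hθ.1
    obtain ⟨A, hA⟩ := bounded θ hθ.1 hθ.2 a2 a3
    refine Set.Finite.subset (Set.Finite.prod (Set.Finite.pi' (fun _ : Fin 1 => Set.finite_lt_nat A))
      (Set.finite_lt_nat A)) ?_
    rintro ⟨a, b⟩ ⟨c1, c2, c3⟩
    have := hA (a 0) b (c1 0) c2 (by simpa using c3)
    refine ⟨fun i => ?_, this.2⟩
    rw [Subsingleton.elim i 0]
    exact this.1
  have h4 : volume (Set.Ioc (0:ℝ) (1/2)) = 0 := measure_eq_zero_iff_ae_notMem.2 h3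
  simp at h4

end Pool.Agent.Results.MP_33ac70_nt.Divergence
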